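import Mathlib
import Pool.Agent.H595R2.PR.Core
import Pool.Agent.H595R2.PR.FEW
import Pool.Agent.V1172.PW.Eng

/-!
# Primitive roots modulo EVERY prime of shrinking residue classes

For every `ε > 0` and `B` one polynomial-time computable list `F p` works for all primes `p ≤ T` in the residue class of
`α` modulo the least `l ^ f ≥ T ^ σ`, for every prime `l` and `σ > 0`, all `l`-adic integers `α` outside a set of Hausdorff
dimension at most `ε / σ` and all `T ≥ T₀(α)`. So for given `σ > 0`, however small, the dimension is as small as we please.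
-/

set_option autoImplicit false

namespace Pool.Agent.Results.MP_18a8a6_lc.PrimesInResidueClasses

open Finset

/-- `F` is computable in polynomial time: some function on bit strings computed by a Turing machine
(Mathlib's `TM2ComputableInPolyTime`) in polynomially many steps sends the binary digits of `p` to
the code of the list `F p`. -/
def PolyTimeList (F : ℕ → List ℕ) : Prop :=
  ∃ f : List Bool → List Bool, NPC.PolyTime f ∧ ∀ p : ℕ, f (Nat.bits p) = NPC.bits (F p)

/-- `g` is a primitive root modulo `p` -/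
def IsPrimRoot (p g : ℕ) : Prop := orderOf (g : ZMod p) = p - 1

open Classical in
/-- all but a fraction `(size p) ^ (-B)` of the entries of the list `F p` are primitive roots modulo `p` -/
def MostlyPrimRoots (F : ℕ → List ℕ) (B p : ℕ) : Prop :=
  p.size ^ B * #{i ∈ range (F p).length | ¬ IsPrimRoot p ((F p).getD i 0)} ≤ (F p).length

section aux

open H595R2.PR Filter Topology

theorem prim_of_gen {A C p a : ℕ} (hp : p.Prime) (h : Gen A C p a) (ht : Gam p (p.size ^ A) = ⊤) :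
    IsPrimRoot p ((cands A C p).getD a 0) := by
  have : Fact p.Prime := ⟨hp⟩
  obtain ⟨u, hu1, hu2⟩ := h
  unfold IsPrimRoot
  rw [← hu1, orderOf_units, ← Nat.card_zpowers, hu2, ht, Subgroup.card_top,
    Nat.card_eq_fintype_card, ZMod.card_units]

end aux

open Classical H595R2.PR Filter Topology in
/-- For every `ε > 0` and every `B` there are `C` and a polynomial-time computable list `F p` of `n ^ C` numbers, `n`
the number of binary digits of `p`, such that for all primes `l` and all `σ > 0` the following holds for all `l`-adic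
integers `α` outside a set of Hausdorff dimension at most `ε / σ`: there is `T₀` such that for all `T ≥ T₀` and EVERY prime
`p ≤ T` with `|p - α|_l ≤ T ^ (-σ)`, all but a fraction `(size p) ^ (-B)` of the entries of `F p` are primitive roots
modulo `p`. -/
theorem result (ε : ℝ) (hε : 0 < ε) (B : ℕ) :
    ∃ (C : ℕ) (F : ℕ → List ℕ), PolyTimeList F ∧ (∀ p : ℕ, (F p).length = p.size ^ C) ∧
      ∀ (l : ℕ) [Fact l.Prime] (σ : ℝ), 0 < σ →
        ∃ E : Set ℤ_[l], dimH E ≤ ENNReal.ofReal (ε / σ) ∧ ∀ α : ℤ_[l], α ∉ E →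
          ∃ T₀ : ℝ, ∀ T : ℝ, T₀ ≤ T → ∀ p : ℕ, p.Prime → (p : ℝ) ≤ T → ‖(p : ℤ_[l]) - α‖ ≤ T ^ (-σ) →
            MostlyPrimRoots F B p := by
  set ε' : ℝ := min ε (1 / 2) with hε'
  have hε0 : 0 < ε' := lt_min hε (by norm_num)
  obtain ⟨A, hA⟩ := H595R2.PR.Gam_top ε' hε0
  obtain ⟨x₁, hx₁⟩ := hA A le_rfl
  obtain ⟨p₀, hp₀⟩ := H595R2.PR.core A (A + B + 2)
  set F := H595R2.PR.cands A (A + B + 2) with hF
  have hlen : ∀ p : ℕ, (F p).length = p.size ^ (A + B + 2) := fun p => by
    simp [hF, H595R2.PR.cands]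
  have hmain : ∀ p : ℕ, p₀ ≤ p → p.Prime → H595R2.PR.Gam p (p.size ^ A) = ⊤ →
      MostlyPrimRoots F B p := by
    intro p hp hpp ht
    have h0 : #{i ∈ range (p.size ^ (A + B + 2)) | ¬ IsPrimRoot p ((F p).getD i 0)} ≤
        p.size ^ (A + 1) := by
      refine le_trans (card_le_card ?_) ((hp₀ p hp hpp).trans (by rw [pow_succ]))
      intro i hi
      obtain ⟨h1, h2⟩ := mem_filter.1 hi
      exact mem_filter.2 ⟨h1, fun hg => h2 (prim_of_gen hpp hg ht)⟩
    unfold MostlyPrimRoots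
    rw [hlen]
    calc p.size ^ B * _ ≤ p.size ^ B * p.size ^ (A + 1) := Nat.mul_le_mul_left _ h0
      _ = p.size ^ (A + B + 1) := by ring
      _ ≤ p.size ^ (A + B + 2) := Nat.pow_le_pow_right (Nat.size_pos.2 hpp.pos) (by omega)
  refine ⟨A + B + 2, F, H595R2.PR.polyTime_cands A (A + B + 2), hlen, ?_⟩
  intro l hl σ hσ
  have hcount : ∀ X : ℕ, 1 ≤ X → ((((Ioc 0 X).filter (fun t => t ∈ {p : ℕ | p.Prime ∧
      ¬ MostlyPrimRoots F B p})).card : ℕ) : ℝ) ≤ ((x₁ : ℝ) + p₀ + 1) * (X : ℝ) ^ ε := by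
      intro X hX
      have hX1 : (1 : ℝ) ≤ X := by exact_mod_cast hX
      have hXp : (1 : ℝ) ≤ (X : ℝ) ^ ε := Real.one_le_rpow hX1 (by positivity)
      have hsub : (Ioc 0 X).filter (fun t => t ∈ {p : ℕ | p.Prime ∧ ¬ MostlyPrimRoots F B p}) ⊆
          range p₀ ∪ (range (X + 1)).filter (fun p => p.Prime ∧
            H595R2.PR.Gam p (p.size ^ A) ≠ ⊤) := by
        intro p hp
        obtain ⟨h1, h2, h3⟩ := mem_filter.1 hp
        rw [mem_union, mem_range]
        by_contra hc
        push Not at hc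
        obtain ⟨h4, h5⟩ := hc
        have h6 : H595R2.PR.Gam p (p.size ^ A) = ⊤ := by
          by_contra h7
          exact h5 (mem_filter.2 ⟨mem_range.2 (by have := (mem_Ioc.1 h1).2; omega), h2, h7⟩)
        exact h3 (hmain p h4 h2 h6)
      have h9 := (card_le_card hsub).trans (card_union_le _ _)
      rw [card_range] at h9
      have h10 : (((Ioc 0 X).filter (fun t => t ∈ {p : ℕ | p.Prime ∧ ¬ MostlyPrimRoots F B p})).card : ℝ) ≤
          p₀ + #((range (X + 1)).filter (fun p => p.Prime ∧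
          H595R2.PR.Gam p (p.size ^ A) ≠ ⊤)) := by exact_mod_cast h9
      have h11 : (#((range (X + 1)).filter (fun p => p.Prime ∧
          H595R2.PR.Gam p (p.size ^ A) ≠ ⊤)) : ℝ) ≤ (x₁ : ℝ) + (X : ℝ) ^ ε := by
        rcases le_total x₁ X with hx | hx
        · refine (hx₁ X hx).trans ?_
          have h12 : (X : ℝ) ^ ε' ≤ (X : ℝ) ^ ε :=
            Real.rpow_le_rpow_of_exponent_le hX1 (min_le_left _ _)
          have h13 : (0 : ℝ) ≤ x₁ := by positivity
          linarith
        · have h12 : (#((range (X + 1)).filter (fun p => p.Prime ∧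
              H595R2.PR.Gam p (p.size ^ A) ≠ ⊤)) : ℝ) ≤ X := by
            have h13 : (range (X + 1)).filter (fun p => p.Prime ∧
                H595R2.PR.Gam p (p.size ^ A) ≠ ⊤) ⊆ Ioc 0 X := by
              intro p hp
              obtain ⟨h1, h2, _⟩ := mem_filter.1 hp
              exact mem_Ioc.2 ⟨h2.pos, by have := mem_range.1 h1; omega⟩
            have h14 := card_le_card h13
            rw [Nat.card_Ioc, Nat.sub_zero] at h14
            exact_mod_cast h14
          have h15 : (X : ℝ) ≤ x₁ := by exact_mod_cast hx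
          linarith
      have h16 : (0 : ℝ) ≤ (x₁ : ℝ) + p₀ := by positivity
      have h17 : (0 : ℝ) ≤ ((x₁ : ℝ) + p₀) * ((X : ℝ) ^ ε - 1) :=
        mul_nonneg h16 (by linarith)
      have h18 : (x₁ : ℝ) + p₀ + (X : ℝ) ^ ε ≤ ((x₁ : ℝ) + p₀ + 1) * (X : ℝ) ^ ε := by
        nlinarith
      refine le_trans ?_ h18
      exact h10.trans (by linarith)
  obtain ⟨E, hE, h⟩ := Pool.Agent.V1172.PW.nats l (ι := Unit) (fun _ => {p : ℕ | p.Prime ∧ ¬ MostlyPrimRoots F B p})
    (s := ε) hε.le (fun _ => by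
      refine ⟨(x₁ : ℝ) + p₀ + 1, fun X hX => ?_⟩
      have hX0 : 0 ≤ X := by linarith
      have hfl : 1 ≤ ⌊X⌋₊ := Nat.le_floor (by exact_mod_cast hX)
      have hsub : {t : ℕ | t ∈ {p : ℕ | p.Prime ∧ ¬ MostlyPrimRoots F B p} ∧ (t : ℝ) ≤ X} ⊆
          (((Ioc 0 ⌊X⌋₊).filter (fun t => t ∈ {p : ℕ | p.Prime ∧ ¬ MostlyPrimRoots F B p}) : Finset ℕ) : Set ℕ) := by
        rintro t ⟨ht1, ht2⟩
        rw [mem_coe, mem_filter, mem_Ioc]
        exact ⟨⟨ht1.1.pos, Nat.le_floor ht2⟩, ht1⟩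
      have h3 := Set.ncard_le_ncard hsub (Finset.finite_toSet _)
      rw [Set.ncard_coe_finset] at h3
      calc ({t : ℕ | t ∈ {p : ℕ | p.Prime ∧ ¬ MostlyPrimRoots F B p} ∧ (t : ℝ) ≤ X}.ncard : ℝ)
          ≤ ((((Ioc 0 ⌊X⌋₊).filter (fun t => t ∈ {p : ℕ | p.Prime ∧ ¬ MostlyPrimRoots F B p})).card : ℕ) : ℝ) := by
            exact_mod_cast h3
        _ ≤ ((x₁ : ℝ) + p₀ + 1) * ((⌊X⌋₊ : ℕ) : ℝ) ^ ε := hcount _ hfl
        _ ≤ ((x₁ : ℝ) + p₀ + 1) * X ^ ε := by
            refine mul_le_mul_of_nonneg_left ?_ (by positivity)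
            exact Real.rpow_le_rpow (Nat.cast_nonneg _) (Nat.floor_le hX0) hε.le) hσ
  refine ⟨E, hE, fun α hαE => ?_⟩
  obtain ⟨T₀, hT⟩ := h α hαE ()
  refine ⟨T₀, fun T hT1 p hp hpT hw => ?_⟩
  by_contra hcon
  exact hT T hT1 p hpT hw ⟨hp, hcon⟩

end Pool.Agent.Results.MP_18a8a6_lc.PrimesInResidueClasses
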